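import Pool.Agent.R693.G.Final
import Pool.Agent.R693.G.PieceG

/-!
# Primitive ideals of `U(W_{-1})` are kernels of maps to Weyl algebras

Let `F` be an uncountable algebraically closed field of characteristic zero.  Every nonzero primitive
ideal of the enveloping algebra `U(W_{-1})` of the Lie algebra `W_{-1} = F[t] ∂` is the kernel of an
algebra map from `U(W_{-1})` to a Weyl algebra `A_k`.  (The zero ideal is not the kernel of such a map,
whether primitive or not, because the dimensions of the spaces of words of bounded length grow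
faster in `U(W_{-1})` than in `A_k`.)

Idea (see `Pool/Agent/R693/G`, which builds on `Pool/Agent/R693/C` and `Pool/Agent/R693/E`).  Let `Q ≠ 0` be
a prime ideal.
* `Q` is the kernel of a map to a domain `B` over an extension field `K`, generated by commuting
  subalgebras, one for each point `z` of a finite subset of `K`; the subalgebra of a point is generated by
  a pair `D, y` with `[D, y] = 1` and elements `v_0, …, v_N` (`v_j` the action of `(t - z)^(j+1) ∂`) with
  `[v_i, v_j] = (j - i) v_{i+j}`, commuting with `D, y`.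
* In the division ring of fractions of `B` let `N` be maximal with `v_N ≠ 0`.  Removing the pairs
  `(v_i, v_{N-i})` one after the other (`ad v_i` has a slice `v_{N-i} / v_N`), one gets elements `q_i, p_i`,
  `x = v_N`, and, if `N` is even, `c`, such that the `v_j`, `j ≥ 1`, are polynomials in them; `v_0` acts as
  the degree derivation, and either `x` or `c` (with `c² / x` central) together with a modification of
  `v_0` gives a last Weyl pair.  So `B` embeds into a Weyl algebra over the centre `C` of its
  division ring of fractions.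
* If `Q` is primitive, then `C`-linear independence over the image of `U` can be tested over `F` (the
  endomorphism ring of the simple module is `F`), and a specialisation `C ⊇ R → F` of a countably
  generated ring of coefficients at which countably many nonzero minors do not vanish has kernel `Q`
  again.
-/

set_option autoImplicit false

namespace Pool.Agent.Results.MP_4da284_al.WeylKernel

open Pool.Agent.R693 Pool.Agent.R693.W

/-- `L` is the Lie algebra `W_{-1} = F[t] ∂`: it has a basis `e_n = t^(n+1) ∂`, `n ≥ -1`, with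
`[e_m, e_n] = (n - m) e_{m + n}` (the right-hand side is zero for `m = n = -1`). -/
def IsWittMinusOne (F : Type) [Field F] (L : Type) [LieRing L] [LieAlgebra F L] : Prop :=
  ∃ e : Module.Basis {n : ℤ // -1 ≤ n} F L,
    (∀ (m n : {n : ℤ // -1 ≤ n}) (h : -1 ≤ m.1 + n.1),
      ⁅e m, e n⁆ = ((n.1 - m.1 : ℤ) : F) • e ⟨m.1 + n.1, h⟩)

/-- A two-sided ideal is primitive if it is the annihilator of a simple left module. -/
def IsPrimitive {U : Type} [Ring U] (P : TwoSidedIdeal U) : Prop :=
  ∃ (M : Type) (_ : AddCommGroup M) (_ : Module U M), IsSimpleModule U M ∧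
    ∀ a : U, a ∈ P ↔ ∀ x : M, a • x = 0

/-- The Weyl algebra `A_k` over `F` (of characteristic zero): the algebra of operators on the polynomial
ring `F[s_1, …, s_k]` generated by the multiplications by the variables and the partial derivatives. -/
noncomputable def WeylAlgebra (F : Type) [Field F] (k : ℕ) :
    Subalgebra F (Module.End F (MvPolynomial (Fin k) F)) :=
  Algebra.adjoin F
    (Set.range (fun i : Fin k => LinearMap.mulLeft F (MvPolynomial.X i : MvPolynomial (Fin k) F)) ∪
      Set.range (fun i : Fin k => ((MvPolynomial.pderiv i : Derivation F (MvPolynomial (Fin k) F)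
        (MvPolynomial (Fin k) F)) : MvPolynomial (Fin k) F →ₗ[F] MvPolynomial (Fin k) F)))

section
attribute [local instance 100] LieRing.ofAssociativeRing

variable {F : Type} [Field F] {L : Type} [LieRing L] [LieAlgebra F L]

lemma iota_comm (x y : L) : UniversalEnvelopingAlgebra.ι F x * UniversalEnvelopingAlgebra.ι F y -
    UniversalEnvelopingAlgebra.ι F y * UniversalEnvelopingAlgebra.ι F x =
      UniversalEnvelopingAlgebra.ι F ⁅x, y⁆ := by
  rw [LieHom.map_lie, LieRing.of_associative_ring_bracket]

lemma exists_shift (hL : IsWittMinusOne F L) :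
    ∃ c : Module.Basis ℕ F L, IsW F (fun m : ℕ => UniversalEnvelopingAlgebra.ι F (c m)) := by
  obtain ⟨e, he⟩ := hL
  let eqv : {n : ℤ // -1 ≤ n} ≃ ℕ :=
    { toFun := fun n => (n.1 + 1).toNat
      invFun := fun m => ⟨(m : ℤ) - 1, by omega⟩
      left_inv := fun n => Subtype.ext (by
        have := n.2
        change ((n.1 + 1).toNat : ℤ) - 1 = n.1
        omega)
      right_inv := fun m => by
        change ((m : ℤ) - 1 + 1).toNat = m
        omega }
  set c : Module.Basis ℕ F L := e.reindex eqv with hc
  have hcm : ∀ m : ℕ, c m = e ⟨(m : ℤ) - 1, by omega⟩ := fun m => by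
    rw [hc, Module.Basis.reindex_apply]; rfl
  refine ⟨c, ?_⟩
  intro m n j hmn
  have h2 : (Lab.one : ℕ) = 1 := rfl
  have h3 : ∀ k : ℕ, (Lab.c k : ℤ) = k := fun k => rfl
  rw [h2] at hmn
  beta_reduce
  rw [iota_comm, h3, h3]
  have h4 : ⁅c m, c n⁆ = (((n : ℤ) - (m : ℤ) : ℤ) : F) • c j := by
    rw [hcm, hcm, hcm, he _ _ (by
      change (-1 : ℤ) ≤ (m : ℤ) - 1 + ((n : ℤ) - 1)
      omega)]
    congr 2
    · change (n : ℤ) - 1 - ((m : ℤ) - 1) = (n : ℤ) - m
      ring
    · apply Subtype.ext
      change (m : ℤ) - 1 + ((n : ℤ) - 1) = (j : ℤ) - 1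
      omega
  rw [h4, map_smul]

lemma countable_dim (c : Module.Basis ℕ F L) :
    ∃ v : ℕ → UniversalEnvelopingAlgebra F L, Submodule.span F (Set.range v) = ⊤ := by
  obtain ⟨β, -⟩ := PBW.exists_basis F L ℕ c
  have : Nonempty {l : List ℕ // l.Pairwise (· ≤ ·)} := ⟨⟨[], List.Pairwise.nil⟩⟩
  obtain ⟨f, hf⟩ := exists_surjective_nat {l : List ℕ // l.Pairwise (· ≤ ·)}
  refine ⟨fun n => β (f n), ?_⟩
  have h1 : Set.range (fun n => β (f n)) = Set.range β := by
    have : (fun n => β (f n)) = β ∘ f := rfl
    rw [this, Set.range_comp, hf.range_eq, Set.image_univ]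
  rw [h1, β.span_eq]

end

/-- Let `F` be an uncountable algebraically closed field of characteristic zero.  A primitive ideal `Q`
of `U(W_{-1})` is the kernel of an algebra map `U(W_{-1}) → A_k` for some `k ≥ 1` if and only if it is
nonzero. -/
theorem result (F : Type) [Field F] [CharZero F] [IsAlgClosed F] [Uncountable F] (L : Type)
    [LieRing L] [LieAlgebra F L] (hL : IsWittMinusOne F L)
    (Q : TwoSidedIdeal (UniversalEnvelopingAlgebra F L)) (hQ : IsPrimitive Q) :
    (∃ (k : ℕ) (φ : UniversalEnvelopingAlgebra F L →ₐ[F] WeylAlgebra F k),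
      1 ≤ k ∧ ∀ a, a ∈ Q ↔ φ a = 0) ↔ Q ≠ ⊥ := by
  obtain ⟨c, hW⟩ := exists_shift hL
  constructor
  · rintro ⟨k, φ, -, hφ⟩ rfl
    obtain ⟨β, hβ⟩ := PBW.exists_basis F L ℕ c
    have hLI : LinearIndependent F (fun l : {l : List ℕ // l.Pairwise (· ≤ ·)} =>
        wd (fun m : ℕ => UniversalEnvelopingAlgebra.ι F (c m)) l.1) := by
      have h4 : (fun l : {l : List ℕ // l.Pairwise (· ≤ ·)} =>
          wd (fun m : ℕ => UniversalEnvelopingAlgebra.ι F (c m)) l.1) = β := by
        funext l
        rw [hβ]
        rfl
      rw [h4]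
      exact β.linearIndependent
    obtain ⟨u, hu, hu'⟩ := G.no_embed hW hLI k ((WeylAlgebra F k).val.comp φ) (fun a => (φ a).2)
    apply hu
    have h1 : φ u = 0 := Subtype.ext hu'
    rwa [← hφ, TwoSidedIdeal.mem_bot] at h1
  · intro h0
    obtain ⟨M, _, _, _, hM⟩ := hQ
    obtain ⟨k, φ, hφ, hker⟩ := G.prim hW (span_of_adjoin (uea_adjoin_basis F c)) (countable_dim c)
      hM h0
    refine ⟨k + 1, φ.codRestrict (WeylAlgebra F (k + 1)) hφ, by omega, fun a => ?_⟩
    rw [← hker]
    constructor
    · intro h
      exact Subtype.ext h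
    · intro h
      exact congrArg Subtype.val h

end Pool.Agent.Results.MP_4da284_al.WeylKernel
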